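import Pool.Agent.H904R3.Gen

/-!
# `Ω_C` is not computable in `Ω_b` and `∃²`

`Dom σ` is the set of the monotone functionals of type `σ` (`Dom nat` consists of the numbers and
the undefined object, `Dom (arr σ τ)` of all monotone maps from `Dom σ` to `Dom τ`, ordered
pointwise), `Term Γ σ` is the set of the terms of type `σ` of Platek's typed lambda calculus with
free variables of the types in the list `Γ`, and `eval` is their interpretation, in which `fix` is
interpreted by least fixed points. `Omega 𝒞` is the functional defined exactly on the sets in `𝒞`
(given by their total characteristic functions), which takes the value `0` if the set is empty and
`1` if it is not; `OmegaB` is the case of the sets with at most one element and `OmegaC` the case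
of the closed subsets of Cantor space; `ex2` is Kleene's quantifier `∃²`.

Idea of the proof. The terms are evaluated by a relation `Ev` defined by rules with premises
indexed by the points of Cantor space. If a computation terminates for all closed sets, then, by
bar induction on analytic sets and the theorem of Lusin and Souslin, its value depends on the
parameters in an analytic way, along a well-founded countable decomposition of the space of
parameters. Using this and Baire category, the union of the input with a generic closed set does
not change the value: if the element of a set with at most one element changed with the generic
set, the union of two mutually generic closed sets would give two elements.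
-/

set_option autoImplicit false

namespace Pool.Agent.Results.MP_242061_lc.NotComputable

open Pool.Agent.H904R3

/-- The functional `ψ` is computable in the functionals in the list `ρ`: it is extended by the
value of some term whose free variables stand for the functionals in `ρ`. -/
def ComputableIn {Γ : List Ty} {σ : Ty} (ψ : Dom σ) (ρ : Env Γ) : Prop :=
  ∃ s : Term Γ σ, ψ ≤ eval s ρ

/-- `Ω_C` is not computable in `Ω_b` and `∃²`. -/
theorem result : ¬ ComputableIn OmegaC (ext OmegaB (ext ex2 empt)) := by
  rintro ⟨s, hs⟩
  exact main s hs

end Pool.Agent.Results.MP_242061_lc.NotComputable
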